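import Mathlib
import Pool.Agent.Helper52.Grid.Cost
import Pool.Agent.Helper52.Grid.Eval

/-! # Costs are 0, 2, 4, and every vertex has at most two forced edges (helper34) -/

namespace Pool.Agent.Helper34.Grid

open Pool.Agent.Helper52.Grid

lemma hCell_vals (κ : Kind) (r j : ℕ) : hCell κ r j = 0 ∨ hCell κ r j = 2 ∨ hCell κ r j = 4 := by
  unfold hCell
  split <;> simp

lemma vCell_vals (κ : Kind) (r j : ℕ) : vCell κ r j = 0 ∨ vCell κ r j = 2 ∨ vCell κ r j = 4 := by
  unfold vCell
  split <;> simp

lemma hL_vals (M i r x : ℕ) : hL M i r x = 0 ∨ hL M i r x = 2 ∨ hL M i r x = 4 := by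
  unfold hL
  split <;> (try split_ifs) <;> simp

lemma vL_vals (M i r x : ℕ) : vL M i r x = 0 ∨ vL M i r x = 2 ∨ vL M i r x = 4 := by
  unfold vL
  split <;> (try split) <;> (try split_ifs) <;> simp

lemma hR_vals (r x : ℕ) : hR r x = 0 ∨ hR r x = 2 ∨ hR r x = 4 := by
  unfold hR
  split <;> simp

lemma vR_vals (i r x : ℕ) : vR i r x = 0 ∨ vR i r x = 2 ∨ vR i r x = 4 := by
  unfold vR
  split <;> (try split) <;> (try split_ifs) <;> simp

lemma hT_vals (s : List Sub) (x y : ℕ) : hT s x y = 0 ∨ hT s x y = 2 ∨ hT s x y = 4 := by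
  unfold hT
  split_ifs <;> simp

lemma vT_vals (s : List Sub) (x y : ℕ) : vT s x y = 0 ∨ vT s x y = 2 ∨ vT s x y = 4 := by
  unfold vT
  split_ifs <;> simp

/-- all costs are `0`, `2`, `4` -/
theorem mod_Vals : S_Vals := by
  intro s M
  constructor
  · intro x y
    unfold hC
    split_ifs
    · exact hT_vals s x y
    · exact hL_vals _ _ _ _
    · exact hCell_vals _ _ _
    · exact hR_vals _ _
    · simp
  · intro x y
    unfold vC
    split_ifs
    · exact vT_vals s x y
    · exact vL_vals _ _ _ _
    · exact vCell_vals _ _ _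
    · exact vR_vals _ _ _
    · simp

/-- indicator of a zero cost -/
def z (a : ℕ) : ℕ := if a = 0 then 1 else 0

lemma z_le (a : ℕ) : z a ≤ 1 := by unfold z; split_ifs <;> simp

lemma z_ne {a : ℕ} (h : a ≠ 0) : z a = 0 := by unfold z; rw [if_neg h]

/-- the local count inside the cells -/
lemma cell_count (κ : Kind) (r j : ℕ) (hr : r < 6) (hj : j < 4) :
    z (hCell κ r j) + (if j = 0 then r % 2 else z (hCell κ r (j - 1))) + z (vCell κ r j) +
      (if r = 0 then 0 else z (vCell κ (r - 1) j)) ≤ 2 := by
  cases κ <;> interval_cases r <;> interval_cases j <;> simp [z, hCell, vCell]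

/-- forced horizontal edges over the left border of a cell -/
lemma left_border (s : List Sub) (M k i r x y : ℕ) (hk : k ≤ s.length) (hi : i < 2 * M + 1)
    (hr : r < 6) (hx : x = 4 + 4 * k) (hy : y = 4 + 6 * i + r) :
    z (hC s M x y) = r % 2 := by
  rcases Nat.eq_zero_or_pos k with hk0 | hk0
  · subst hk0
    rw [hC_left hi hr (by omega) hy, hx]
    interval_cases r <;> simp [z, hL]
  · rw [hC_cell (k := k - 1) (j := 3) (by omega) hi hr (by norm_num) (by omega) hy]
    cases kind (sg s (k - 1)) i <;> interval_cases r <;> simp [z, hCell]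

lemma fd_cell (s : List Sub) (M k i r j x y : ℕ) (hk : k < s.length) (hi : i < 2 * M + 1)
    (hr : r < 6) (hj : j < 4) (hx : x + 1 = 5 + 4 * k + j) (hy : y + 1 = 4 + 6 * i + r) :
    z (hC s M (x + 1) (y + 1)) + z (hC s M x (y + 1)) + z (vC s M (x + 1) (y + 1)) +
      z (vC s M (x + 1) y) ≤ 2 := by
  have h := cell_count (kind (sg s k) i) r j hr hj
  rw [hC_cell hk hi hr hj hx hy, vC_cell hk hi hr hj hx hy]
  have h1 : z (hC s M x (y + 1)) =
      if j = 0 then r % 2 else z (hCell (kind (sg s k) i) r (j - 1)) := by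
    split_ifs with h0
    · exact left_border s M k i r x (y + 1) hk.le hi hr (by omega) hy
    · rw [hC_cell (k := k) (j := j - 1) hk hi hr (by omega) (by omega) hy]
  have h2 : z (vC s M (x + 1) y) =
      if r = 0 then 0 else z (vCell (kind (sg s k) i) (r - 1) j) := by
    split_ifs with h0
    · apply z_ne
      rcases Nat.eq_zero_or_pos i with hi0 | hi0
      · rw [vC_topC hk (by omega) hj hx]
        unfold vTop
        split_ifs <;> omega
      · rw [vC_cell (i := i - 1) (r := 5) hk (by omega) (by omega) hj hx (by omega)]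
        cases kind (sg s k) (i - 1) <;> interval_cases j <;> simp [vCell]
    · rw [vC_cell (k := k) (i := i) (r := r - 1) (j := j) hk hi (by omega) hj hx (by omega)]
  rw [h1, h2]
  exact h

lemma fd_left (s : List Sub) (M i r x y : ℕ) (hi : i < 2 * M + 1)
    (hr : r < 6) (hx : x + 1 < 5) (hy : y + 1 = 4 + 6 * i + r) :
    z (hC s M (x + 1) (y + 1)) + z (hC s M x (y + 1)) + z (vC s M (x + 1) (y + 1)) +
      z (vC s M (x + 1) y) ≤ 2 := by
  rw [hC_left hi hr hx hy, hC_left hi hr (by omega) hy, vC_left hi hr hx hy]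
  rcases Nat.eq_zero_or_pos r with h0 | h0
  · subst h0
    have h1 : z (hL M i 0 (x + 1)) = 0 := by
      apply z_ne
      simp [hL]
    have h2 : z (hL M i 0 x) = 0 := by
      apply z_ne
      simp [hL]
    have h3 := z_le (vL M i 0 (x + 1))
    have h4 := z_le (vC s M (x + 1) y)
    omega
  · rw [vC_left (i := i) (r := r - 1) hi (by omega) hx (by omega)]
    have hxx : x = 0 ∨ x = 1 ∨ x = 2 ∨ x = 3 := by omega
    by_cases c1 : i = 2 * M
    · subst c1
      interval_cases r <;> rcases hxx with rfl | rfl | rfl | rfl <;> simp [z, hL, vL]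
    · have c2 : i < 2 * M := by omega
      by_cases c3 : i % 2 = 0
      · interval_cases r <;> rcases hxx with rfl | rfl | rfl | rfl <;>
          simp [z, hL, vL, c1, c2, c3]
      · interval_cases r <;> rcases hxx with rfl | rfl | rfl | rfl <;>
          simp [z, hL, vL, c1, c2, c3]

lemma fd_right (s : List Sub) (M i r j x y : ℕ) (hi : i < 2 * M + 1)
    (hr : r < 6) (hx : x + 1 = 5 + 4 * s.length + j) (hy : y + 1 = 4 + 6 * i + r) :
    z (hC s M (x + 1) (y + 1)) + z (hC s M x (y + 1)) + z (vC s M (x + 1) (y + 1)) +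
      z (vC s M (x + 1) y) ≤ 2 := by
  have hup : r ≠ 0 → vC s M (x + 1) y = vR i (r - 1) j :=
    fun h0 => vC_right (i := i) (r := r - 1) hi (by omega) hx (by omega)
  rw [hC_right hi hr hx hy, vC_right hi hr hx hy]
  rcases Nat.eq_zero_or_pos j with hj | hj
  · subst hj
    rw [left_border s M s.length i r x (y + 1) le_rfl hi hr (by omega) hy]
    rcases Nat.eq_zero_or_pos r with h0 | h0
    · subst h0
      have h4 := z_le (vC s M (x + 1) y)
      simp [z, hR, vR] at h4 ⊢
      omega
    · rw [hup (by omega)]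
      interval_cases r <;> simp [z, hR, vR]
  · have hl : hC s M x (y + 1) = hR r (j - 1) :=
      hC_right (j := j - 1) hi hr (by omega) hy
    rw [hl]
    have h4 := z_le (vC s M (x + 1) y)
    have hj' : j = 1 ∨ j = 2 ∨ j = 3 ∨ 3 < j := by omega
    rcases hj' with rfl | rfl | rfl | hj4
    · rcases Nat.eq_zero_or_pos r with h0 | h0
      · subst h0
        simp [z, hR, vR] at h4 ⊢
        omega
      · rw [hup (by omega)]
        interval_cases r <;> simp [z, hR, vR]
    · rcases Nat.eq_zero_or_pos r with h0 | h0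
      · subst h0
        simp [z, hR, vR] at h4 ⊢
        split_ifs at h4 ⊢ <;> omega
      · rw [hup (by omega)]
        interval_cases r <;> simp [z, hR, vR] <;> (try split_ifs) <;> omega
    · have h1 : z (hR r 3) = 0 := by
        apply z_ne
        interval_cases r <;> simp [hR]
      have h2 : z (hR r (3 - 1)) = 0 := by
        apply z_ne
        interval_cases r <;> simp [hR]
      have h3 := z_le (vR i r 3)
      omega
    · have h1 : z (hR r j) = 0 := by
        apply z_ne
        obtain ⟨a, rfl⟩ : ∃ a, j = a + 4 := ⟨j - 4, by omega⟩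
        interval_cases r <;> simp [hR]
      have h2 : z (hR r (j - 1)) = 0 := by
        apply z_ne
        obtain ⟨a, rfl⟩ : ∃ a, j = a + 4 := ⟨j - 4, by omega⟩
        have : a + 4 - 1 = a + 3 := by omega
        rw [this]
        interval_cases r <;> simp [hR]
      have h3 := z_le (vR i r j)
      omega

lemma fd_top (s : List Sub) (M x y : ℕ) (hy : y + 1 < 4) :
    z (hC s M (x + 1) (y + 1)) + z (hC s M x (y + 1)) + z (vC s M (x + 1) (y + 1)) +
      z (vC s M (x + 1) y) ≤ 2 := by
  have hyy : y = 0 ∨ y = 1 ∨ y = 2 := by omega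
  have a1 := z_le (hC s M (x + 1) (y + 1))
  have a2 := z_le (hC s M x (y + 1))
  have a3 := z_le (vC s M (x + 1) (y + 1))
  have a4 := z_le (vC s M (x + 1) y)
  rcases col_cases s.length (x + 1) with hx | ⟨k, j, hk, hj, hx⟩ | ⟨j, hx⟩
  · rw [hC_topL hy hx, hC_topL hy (by omega), vC_topL hy hx, vC_topL (by omega) hx]
    rcases hyy with rfl | rfl | rfl
    · simp [z]
    · simp [z]
    · have hxx : x = 0 ∨ x = 1 ∨ x = 2 ∨ x = 3 := by omega
      rcases hxx with rfl | rfl | rfl | rfl <;> simp [z]
  · rw [hC_topC hk hy hj hx, vC_topC hk hy hj hx, vC_topC hk (by omega) hj hx]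
    rw [hC_topC hk hy hj hx] at a1
    rw [vC_topC hk hy hj hx] at a3
    rw [vC_topC hk (by omega) hj hx] at a4
    rcases hyy with rfl | rfl | rfl
    · -- y + 1 = 1
      have b4 : z (vTop (sg s k) (sg s (k + 1)) 0 j) = 0 := by simp [z, vTop]
      rw [b4]
      by_cases hc : (j = 0 ∧ sg s k = none) ∨ (j = 3 ∧ sg s (k + 1) = none)
      · rcases hc with ⟨hj0, hn⟩ | ⟨hj3, hn⟩
        · -- no left edge
          have b2 : z (hC s M x (0 + 1)) = 0 := by
            rcases Nat.eq_zero_or_pos k with hk0 | hk0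
            · rw [hC_topL (by norm_num) (by omega)]
              simp [z]
            · rw [hC_topC (k := k - 1) (j := 3) (by omega) (by norm_num) (by norm_num) (by omega)]
              have : k - 1 + 1 = k := by omega
              rw [this, hn]
              simp [z, hTop]
          omega
        · have b1 : z (hTop (sg s k) (sg s (k + 1)) (0 + 1) j) = 0 := by
            rw [hj3, hn]
            simp [z, hTop]
          omega
      · have b3 : z (vTop (sg s k) (sg s (k + 1)) (0 + 1) j) = 0 := by
          push Not at hc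
          have h1 : ¬ (j = 0 ∧ sg s k = none) := fun h => hc.1 h.1 h.2
          have h2 : ¬ (j = 3 ∧ sg s (k + 1) = none) := fun h => hc.2 h.1 h.2
          simp [z, vTop, h1, h2]
        omega
    · -- y + 1 = 2
      have b3 : z (vTop (sg s k) (sg s (k + 1)) (1 + 1) j) = 0 := by
        apply z_ne
        unfold vTop
        split_ifs <;> omega
      rw [b3]
      by_cases hc : (j = 0 ∧ sg s k = none) ∨ (j = 3 ∧ sg s (k + 1) = none)
      · rcases hc with ⟨hj0, hn⟩ | ⟨hj3, hn⟩
        · -- no left edge
          have b2 : z (hC s M x (1 + 1)) = 0 := by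
            rcases Nat.eq_zero_or_pos k with hk0 | hk0
            · rw [hC_topL (by norm_num) (by omega)]
              simp [z]
            · rw [hC_topC (k := k - 1) (j := 3) (by omega) (by norm_num) (by norm_num) (by omega)]
              have : k - 1 + 1 = k := by omega
              rw [this, hn]
              simp [z, hTop]
          omega
        · have b1 : z (hTop (sg s k) (sg s (k + 1)) (1 + 1) j) = 0 := by
            rw [hj3, hn]
            simp [z, hTop]
          omega
      · have b4 : z (vTop (sg s k) (sg s (k + 1)) 1 j) = 0 := by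
          push Not at hc
          have h1 : ¬ (j = 0 ∧ sg s k = none) := fun h => hc.1 h.1 h.2
          have h2 : ¬ (j = 3 ∧ sg s (k + 1) = none) := fun h => hc.2 h.1 h.2
          simp [z, vTop, h1, h2]
        omega
    · -- y + 1 = 3
      have b3 : z (vTop (sg s k) (sg s (k + 1)) (2 + 1) j) = 0 := by
        apply z_ne
        unfold vTop
        split_ifs <;> omega
      have b4 : z (vTop (sg s k) (sg s (k + 1)) 2 j) = 0 := by
        apply z_ne
        unfold vTop
        split_ifs <;> omega
      omega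
  · rw [hC_topR hy hx, vC_topR hy hx, vC_topR (by omega) hx]
    rw [hC_topR hy hx] at a1
    rcases hyy with rfl | rfl | rfl
    · have b1 : z (if 0 + 1 = 3 ∧ j < 2 then 0 else 4) = 0 := by simp [z]
      have b2 : z (if 0 + 1 = 3 ∧ j = 2 then 0 else 4) = 0 := by simp [z]
      have b3 : z (if 0 = 3 ∧ j = 2 then 0 else 4) = 0 := by simp [z]
      rw [b1, b2, b3]
      omega
    · have b1 : z (if 1 + 1 = 3 ∧ j < 2 then 0 else 4) = 0 := by simp [z]
      have b2 : z (if 1 + 1 = 3 ∧ j = 2 then 0 else 4) = 0 := by simp [z]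
      have b3 : z (if 1 = 3 ∧ j = 2 then 0 else 4) = 0 := by simp [z]
      rw [b1, b2, b3]
      omega
    · have b4 : z (if 2 = 3 ∧ j = 2 then 0 else 4) = 0 := by simp [z]
      rw [b4]
      by_cases hj : j = 2
      · have b1 : z (if 2 + 1 = 3 ∧ j < 2 then 0 else 4) = 0 := by simp [z, hj]
        rw [b1]
        have b3 := z_le (if 2 + 1 = 3 ∧ j = 2 then 0 else 4)
        omega
      · have b3 : z (if 2 + 1 = 3 ∧ j = 2 then 0 else 4) = 0 := by simp [z, hj]
        rw [b3]
        omega

/-- (FD) at most two forced edges at each vertex -/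
theorem mod_FD : S_FD := by
  intro s M _ _ x y
  change z (hC s M (x + 1) (y + 1)) + z (hC s M (x + 1 - 1) (y + 1)) +
    z (vC s M (x + 1) (y + 1)) + z (vC s M (x + 1) (y + 1 - 1)) ≤ 2
  rw [Nat.add_sub_cancel, Nat.add_sub_cancel]
  rcases row_cases (y + 1) with hy | ⟨i, r, hr, hy⟩
  · exact fd_top s M x y hy
  · rcases Nat.lt_or_ge i (2 * M + 1) with hi | hi
    · rcases col_cases s.length (x + 1) with hx | ⟨k, j, hk, hj, hx⟩ | ⟨j, hx⟩
      · exact fd_left s M i r x y hi hr hx hy
      · exact fd_cell s M k i r j x y hk hi hr hj hx hy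
      · exact fd_right s M i r j x y hi hr hx hy
    · have h1 : z (hC s M (x + 1) (y + 1)) = 0 := z_ne (by rw [hC_bot hi (by omega)]; norm_num)
      have h2 : z (hC s M x (y + 1)) = 0 := z_ne (by rw [hC_bot hi (by omega)]; norm_num)
      have h3 := z_le (vC s M (x + 1) (y + 1))
      have h4 := z_le (vC s M (x + 1) y)
      omega

end Pool.Agent.Helper34.Grid
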